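import Pool.Agent.H308R3.DM.Stmts

set_option autoImplicit false

namespace Pool.Agent.H308R3.DM

namespace Geo711

/-- real version of `emb` -/
noncomputable def rem (u v : ℝ) : ℂ := ⟨(u + v) / 2, (u - v) / 2⟩

lemma normSq_rem (u v : ℝ) : ‖rem u v‖ ^ 2 = (u ^ 2 + v ^ 2) / 2 := by
  rw [Complex.sq_norm, Complex.normSq_apply]
  simp only [rem]
  ring

lemma norm_rem_le {u v r : ℝ} (hu : |u| ≤ r) (hv : |v| ≤ r) : ‖rem u v‖ ≤ r := by
  have hr : 0 ≤ r := (abs_nonneg u).trans hu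
  have h1 := normSq_rem u v
  have h2 : u ^ 2 ≤ r ^ 2 := sq_le_sq' (abs_le.mp hu).1 (abs_le.mp hu).2
  have h3 : v ^ 2 ≤ r ^ 2 := sq_le_sq' (abs_le.mp hv).1 (abs_le.mp hv).2
  nlinarith [norm_nonneg (rem u v)]

lemma le_norm_rem {u v r : ℝ} (hr : 0 ≤ r) (hu : r ≤ u) (hv : r ≤ v) : r ≤ ‖rem u v‖ := by
  have h1 := normSq_rem u v
  have h2 : r ^ 2 ≤ u ^ 2 := by nlinarith
  have h3 : r ^ 2 ≤ v ^ 2 := by nlinarith
  by_contra h
  push Not at h
  nlinarith [norm_nonneg (rem u v)]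

lemma emb_eq (x : Pt) : emb x = rem x.1 x.2 := rfl

lemma rem_sub (u v u' v' : ℝ) : rem u v - rem u' v' = rem (u - u') (v - v') := by
  apply Complex.ext
  · simp only [rem, Complex.sub_re]; ring
  · simp only [rem, Complex.sub_im]; ring

lemma rem_add (u v u' v' : ℝ) : rem u v + rem u' v' = rem (u + u') (v + v') := by
  apply Complex.ext
  · simp only [rem, Complex.add_re]; ring
  · simp only [rem, Complex.add_im]; ring

lemma rem_div (u v D : ℝ) : rem u v / (D : ℂ) = rem (u / D) (v / D) := by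
  apply Complex.ext
  · rw [Complex.div_ofReal_re]; simp only [rem]; ring
  · rw [Complex.div_ofReal_im]; simp only [rem]; ring

lemma rem_mem_Dmd {u v : ℝ} (hu : |u| ≤ 1 / 2) (hv : |v| ≤ 1 / 2) : rem u v ∈ Dmd := by
  show |(rem u v).re| + |(rem u v).im| ≤ 1 / 2
  simp only [rem]
  rw [abs_le] at hu hv
  rcases abs_cases ((u + v) / 2) with h | h <;> rcases abs_cases ((u - v) / 2) with h' | h' <;>
    linarith [h.1, h'.1, hu.1, hu.2, hv.1, hv.2]

lemma Dmd_eq {z : ℂ} (hz : z ∈ Dmd) : ∃ u v : ℝ, |u| ≤ 1 / 2 ∧ |v| ≤ 1 / 2 ∧ z = rem u v := by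
  refine ⟨z.re + z.im, z.re - z.im, ?_, ?_, ?_⟩
  · have h : |z.re| + |z.im| ≤ 1 / 2 := hz
    exact (abs_add_le _ _).trans h
  · have h : |z.re| + |z.im| ≤ 1 / 2 := hz
    exact (abs_sub _ _).trans h
  · apply Complex.ext
    · simp only [rem]; ring
    · simp only [rem]; ring

lemma clamp (t r : ℝ) (hr : 0 ≤ r) (ht : |t| ≤ 1 / 2 + r) :
    ∃ t' : ℝ, |t'| ≤ 1 / 2 ∧ |t - t'| ≤ r := by
  rw [abs_le] at ht
  rcases le_total t (-(1 / 2)) with h | h
  · refine ⟨-(1 / 2), by norm_num [abs_of_pos], ?_⟩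
    rw [abs_le]; constructor <;> linarith [ht.1, ht.2]
  · rcases le_total t (1 / 2) with h' | h'
    · exact ⟨t, abs_le.mpr ⟨h, h'⟩, by simpa using hr⟩
    · refine ⟨1 / 2, by norm_num [abs_of_pos], ?_⟩
      rw [abs_le]; constructor <;> linarith [ht.1, ht.2]

/-- choice of a box position -/
lemma choose_box (a b : ℤ) (w : ℕ) (T s : ℝ) (hs : 0 ≤ s) (hab : a + w ≤ b)
    (h1 : (a : ℝ) - s ≤ T) (h2 : T ≤ (b : ℝ) - w + s) :
    ∃ α : ℤ, a ≤ α ∧ α + w ≤ b ∧ |(α : ℝ) - T| ≤ 1 + s := by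
  have hab' : (a : ℝ) + w ≤ b := by exact_mod_cast hab
  rcases le_total T a with h | h
  · refine ⟨a, le_refl _, hab, ?_⟩
    rw [abs_le]; constructor <;> linarith
  · rcases le_total T ((b : ℝ) - w) with h' | h'
    · refine ⟨⌊T⌋, Int.le_floor.mpr h, ?_, ?_⟩
      · have : (⌊T⌋ : ℝ) ≤ T := Int.floor_le T
        have h3 : ((⌊T⌋ + w : ℤ) : ℝ) ≤ b := by push_cast; linarith
        exact_mod_cast h3
      · have h3 := Int.floor_le T
        have h4 := Int.lt_floor_add_one T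
        rw [abs_le]; constructor <;> linarith
    · refine ⟨b - w, by linarith, by linarith, ?_⟩
      push_cast
      rw [abs_le]; constructor <;> linarith

end Geo711

open Geo711 in
theorem taskGeo : TaskGeo := by
  intro ε hε
  set δ : ℝ := min (ε / 24) (1 / 12) with hδ
  have hδ0 : 0 < δ := by
    rw [hδ]; exact lt_min (by positivity) (by norm_num)
  have hδ1 : δ ≤ ε / 24 := min_le_left _ _
  have hδ2 : δ ≤ 1 / 12 := min_le_right _ _
  refine ⟨δ, δ, 8 / ε + 1, hδ0, hδ0, ?_⟩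
  intro p G a b c d w hp hG hU hV hab hcd hw hbox
  have hp0 : 0 < p := by
    have : 0 < 8 / ε + 1 := by positivity
    linarith
  have hpε : 8 ≤ ε * p := by
    have h1 : 8 / ε ≤ p := by linarith
    rw [div_le_iff₀ hε] at h1
    linarith
  rw [abs_le] at hab hcd
  obtain ⟨hab1, hab2⟩ := hab
  obtain ⟨hcd1, hcd2⟩ := hcd
  have hw0 : (0 : ℝ) ≤ w := Nat.cast_nonneg w
  have hδp : δ * p ≤ 1 / 12 * p := mul_le_mul_of_nonneg_right hδ2 hp0.le
  have hδp0 : 0 < δ * p := mul_pos hδ0 hp0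
  have hab3 : a + w ≤ b := by
    have : ((a + w : ℤ) : ℝ) ≤ b := by push_cast; linarith
    exact_mod_cast this
  have hcd3 : c + w ≤ d := by
    have : ((c + w : ℤ) : ℝ) ≤ d := by push_cast; linarith
    exact_mod_cast this
  have hGu : ∀ x ∈ G, (a : ℝ) ≤ x.1 ∧ (x.1 : ℝ) ≤ b := by
    intro x hx
    have : x.1 ∈ Finset.Icc a b := by
      rw [← hU]; exact Finset.mem_image_of_mem _ hx
    rw [Finset.mem_Icc] at this
    exact ⟨by exact_mod_cast this.1, by exact_mod_cast this.2⟩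
  have hGv : ∀ x ∈ G, (c : ℝ) ≤ x.2 ∧ (x.2 : ℝ) ≤ d := by
    intro x hx
    have : x.2 ∈ Finset.Icc c d := by
      rw [← hV]; exact Finset.mem_image_of_mem _ hx
    rw [Finset.mem_Icc] at this
    exact ⟨by exact_mod_cast this.1, by exact_mod_cast this.2⟩
  set D : ℝ := Metric.diam (emb '' (G : Set Pt)) with hD
  have hDle : D ≤ (1 + δ) * p := by
    apply Metric.diam_le_of_forall_dist_le (by positivity)
    rintro _ ⟨x, hx, rfl⟩ _ ⟨y, hy, rfl⟩
    rw [emb_eq, emb_eq, dist_eq_norm, rem_sub]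
    have h1 := hGu x hx
    have h2 := hGu y hy
    have h3 := hGv x hx
    have h4 := hGv y hy
    apply norm_rem_le
    · rw [abs_le]; constructor <;> linarith [h1.1, h1.2, h2.1, h2.2]
    · rw [abs_le]; constructor <;> linarith [h3.1, h3.2, h4.1, h4.2]
  have hDge : (1 - 3 * δ) * p ≤ D := by
    obtain ⟨x, hx, hxb⟩ := hbox a c le_rfl hab3 le_rfl hcd3
    obtain ⟨y, hy, hyb⟩ := hbox (b - w) (d - w) (by linarith) (by linarith) (by linarith)
      (by linarith)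
    have hbd : Bornology.IsBounded (emb '' (G : Set Pt)) :=
      (G.finite_toSet.image emb).isBounded
    refine le_trans ?_ (Metric.dist_le_diam_of_mem hbd (Set.mem_image_of_mem _ hy)
      (Set.mem_image_of_mem _ hx))
    rw [emb_eq, emb_eq, dist_eq_norm, rem_sub]
    obtain ⟨hx1, hx2, hx3, hx4⟩ := hxb
    obtain ⟨hy1, hy2, hy3, hy4⟩ := hyb
    have hx2' : (x.1 : ℝ) ≤ a + w := by exact_mod_cast hx2
    have hx4' : (x.2 : ℝ) ≤ c + w := by exact_mod_cast hx4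
    have hy1' : (b : ℝ) - w ≤ y.1 := by exact_mod_cast hy1
    have hy3' : (d : ℝ) - w ≤ y.2 := by exact_mod_cast hy3
    apply le_norm_rem
    · nlinarith
    · linarith
    · linarith
  have h3δ : 3 / 4 ≤ 1 - 3 * δ := by linarith
  have hDp : 3 / 4 * p ≤ D := le_trans (mul_le_mul_of_nonneg_right h3δ hp0.le) hDge
  have hD0 : 0 < D := by linarith
  -- the translation
  set cu : ℝ := ((a : ℝ) + b) / 2 with hcu
  set cv : ℝ := ((c : ℝ) + d) / 2 with hcv
  refine iInf_le_of_le (rem (cu / D) (cv / D)) ?_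
  apply Metric.hausdorffEDist_le_of_mem_edist
  · -- points of the shape
    rintro _ ⟨_, ⟨x, hx, rfl⟩, rfl⟩
    have h1 := hGu x hx
    have h3 := hGv x hx
    -- coordinates
    have key : ∀ (t m lo hi : ℝ), m = (lo + hi) / 2 → lo ≤ t → t ≤ hi → hi - lo - p ≤ δ * p →
        |t / D - m / D| ≤ 1 / 2 + 8 * δ := by
      intro t m lo hi hm hlo hhi hsz
      rw [← sub_div, abs_div, abs_of_pos hD0, div_le_iff₀ hD0]
      have h5 : |t - m| ≤ (1 + δ) * p / 2 := by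
        rw [hm, abs_le]; constructor <;> linarith
      refine h5.trans ?_
      have h6 : (1 / 2 + 8 * δ) * ((1 - 3 * δ) * p) ≤ (1 / 2 + 8 * δ) * D :=
        mul_le_mul_of_nonneg_left hDge (by positivity)
      refine le_trans ?_ h6
      have h7 : (1 + δ) / 2 ≤ (1 / 2 + 8 * δ) * (1 - 3 * δ) := by nlinarith
      nlinarith
    have hu := key x.1 cu a b hcu h1.1 h1.2 hab2
    have hv := key x.2 cv c d hcv h3.1 h3.2 hcd2
    obtain ⟨u', hu1, hu2⟩ := clamp _ _ (by positivity) hu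
    obtain ⟨v', hv1, hv2⟩ := clamp _ _ (by positivity) hv
    refine ⟨rem (cu / D) (cv / D) + rem u' v', ⟨rem u' v', rem_mem_Dmd hu1 hv1, rfl⟩, ?_⟩
    rw [edist_dist]
    apply ENNReal.ofReal_le_ofReal
    show dist (emb x / (D : ℂ)) _ ≤ ε
    rw [emb_eq, rem_div, rem_add, dist_eq_norm, rem_sub]
    refine (norm_rem_le (r := 8 * δ) ?_ ?_).trans (by linarith)
    · rw [show (x.1 : ℝ) / D - (cu / D + u') = x.1 / D - cu / D - u' by ring]; exact hu2
    · rw [show (x.2 : ℝ) / D - (cv / D + v') = x.2 / D - cv / D - v' by ring]; exact hv2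
  · -- points of the diamond
    rintro _ ⟨z, hz, rfl⟩
    obtain ⟨u, v, hu, hv, rfl⟩ := Dmd_eq hz
    have key : ∀ (t m : ℝ) (lo hi : ℤ), m = ((lo : ℝ) + hi) / 2 → |t| ≤ 1 / 2 →
        -(δ * p) ≤ (hi : ℝ) - lo - p → lo + w ≤ hi →
        ∃ α : ℤ, lo ≤ α ∧ α + w ≤ hi ∧ |(α : ℝ) - (m + D * t)| ≤ 1 + 2 * (δ * p) := by
      intro t m lo hi hm ht hsz hlw
      have h5 : |D * t| ≤ (1 + δ) * p / 2 := by
        rw [abs_mul, abs_of_pos hD0]
        have : D * |t| ≤ D * (1 / 2) := mul_le_mul_of_nonneg_left ht hD0.le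
        linarith
      rw [abs_le] at h5
      apply choose_box lo hi w (m + D * t) (2 * (δ * p)) (by positivity) hlw
      · rw [hm]; linarith [h5.1]
      · rw [hm]; linarith [h5.2]
    obtain ⟨α, hα1, hα2, hα3⟩ := key u cu a b hcu hu hab1 hab3
    obtain ⟨γ, hγ1, hγ2, hγ3⟩ := key v cv c d hcv hv hcd1 hcd3
    obtain ⟨x, hx, hxb⟩ := hbox α γ hα1 hα2 hγ1 hγ2
    obtain ⟨hx1, hx2, hx3, hx4⟩ := hxb
    have hx1' : (α : ℝ) ≤ x.1 := by exact_mod_cast hx1
    have hx2' : (x.1 : ℝ) ≤ α + w := by exact_mod_cast hx2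
    have hx3' : (γ : ℝ) ≤ x.2 := by exact_mod_cast hx3
    have hx4' : (x.2 : ℝ) ≤ γ + w := by exact_mod_cast hx4
    refine ⟨emb x / (D : ℂ), ⟨_, ⟨x, hx, rfl⟩, rfl⟩, ?_⟩
    rw [edist_comm, edist_dist]
    apply ENNReal.ofReal_le_ofReal
    rw [emb_eq, rem_div]
    show dist _ (rem (cu / D) (cv / D) + rem u v) ≤ ε
    rw [rem_add, dist_eq_norm, rem_sub]
    have fin : ∀ (s m t A : ℝ), A ≤ s → s ≤ A + w → |A - (m + D * t)| ≤ 1 + 2 * (δ * p) →
        |s / D - (m / D + t)| ≤ ε := by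
      intro s m t A h5 h6 h7
      have h8 : s / D - (m / D + t) = (s - (m + D * t)) / D := by
        field_simp
      rw [h8, abs_div, abs_of_pos hD0, div_le_iff₀ hD0]
      rw [abs_le] at h7
      have h9 : |s - (m + D * t)| ≤ 1 + 3 * (δ * p) := by
        rw [abs_le]; constructor <;> linarith [h7.1, h7.2]
      refine h9.trans ?_
      have h10 : ε * (3 / 4 * p) ≤ ε * D := mul_le_mul_of_nonneg_left hDp hε.le
      have h11 : δ * p ≤ ε / 24 * p := mul_le_mul_of_nonneg_right hδ1 hp0.le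
      nlinarith
    apply norm_rem_le
    · exact fin _ _ _ _ hx1' hx2' hα3
    · exact fin _ _ _ _ hx3' hx4' hγ3

end Pool.Agent.H308R3.DM
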